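import Mathlib

/-!
The largest square inscribed in the unit cube of odd dimension `2n+1` has edge `√(n + 1/8)`.
-/

open Finset

namespace Pool.Agent.Results.MP_befaea_co.LargestSquareOdd

/-- The unit cube `[0,1]^n` in Euclidean space. -/
def unitCube (n : ℕ) : Set (EuclideanSpace ℝ (Fin n)) :=
  {y | ∀ j, 0 ≤ y j ∧ y j ≤ 1}

/-- The model `m`-dimensional cube `[0,s]^m`. -/
def modelCube (m : ℕ) (s : ℝ) : Set (EuclideanSpace ℝ (Fin m)) :=
  {x | ∀ i, 0 ≤ x i ∧ x i ≤ s}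

/-- An `m`-dimensional cube of edge `s > 0` (the image of `[0,s]^m` under an affine isometric
embedding) is contained in the unit cube of dimension `n`. -/
def Inscribed (m n : ℕ) (s : ℝ) : Prop :=
  0 < s ∧ ∃ φ : EuclideanSpace ℝ (Fin m) →ᵃⁱ[ℝ] EuclideanSpace ℝ (Fin n),
    φ '' modelCube m s ⊆ unitCube n

/-! ### The local estimates -/

lemma local1 (p q : ℝ) (hp : 0 ≤ p) (hq : 0 ≤ q) (h : p + q ≤ 1) :
    4 * (p * q) ≤ 1 - (p ^ 2 - q ^ 2) ^ 2 := by
  have h1 : (p + q) ^ 2 ≤ 1 := by nlinarith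
  have h2 : (p ^ 2 - q ^ 2) ^ 2 = (p - q) ^ 2 * (p + q) ^ 2 := by ring
  have h3 : (p - q) ^ 2 * (p + q) ^ 2 ≤ (p - q) ^ 2 * 1 :=
    mul_le_mul_of_nonneg_left h1 (sq_nonneg _)
  nlinarith

/-- For `X = |u² - v²|`, `Y = 2|uv|`: `Y ≤ (1 - X²)/2`. -/
lemma local2 (u v : ℝ) (h : |u| + |v| ≤ 1) :
    |2 * (u * v)| ≤ (1 - |u ^ 2 - v ^ 2|) * (1 + |u ^ 2 - v ^ 2|) / 2 := by
  have h1 := local1 |u| |v| (abs_nonneg u) (abs_nonneg v) h
  rw [sq_abs, sq_abs] at h1
  rw [abs_mul, abs_mul, abs_two]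
  have h2 : |u ^ 2 - v ^ 2| ^ 2 = (u ^ 2 - v ^ 2) ^ 2 := sq_abs _
  nlinarith

lemma abs_sub_le_one (u v : ℝ) (h : |u| + |v| ≤ 1) : |u ^ 2 - v ^ 2| ≤ 1 := by
  have hu := abs_nonneg u
  have hv := abs_nonneg v
  have h1 : u ^ 2 ≤ 1 := by rw [← sq_abs]; nlinarith
  have h2 : v ^ 2 ≤ 1 := by rw [← sq_abs]; nlinarith
  rw [abs_le]
  constructor <;> nlinarith [sq_nonneg u, sq_nonneg v]

lemma local3 (p q : ℝ) (hq : 0 ≤ q) (hpq : q ≤ p) (h : p + q ≤ 1) :
    (p ^ 2 + q ^ 2 - (p ^ 2 - q ^ 2)) * (1 + (p ^ 2 - q ^ 2)) ≤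
      (1 - (p ^ 2 - q ^ 2)) * (2 * (p * q)) := by
  have h1 : (p + q) ^ 2 ≤ 1 := by nlinarith
  have key : (1 - (p ^ 2 - q ^ 2)) * (2 * (p * q)) -
      (p ^ 2 + q ^ 2 - (p ^ 2 - q ^ 2)) * (1 + (p ^ 2 - q ^ 2)) =
      2 * q * ((p - q) * (1 - (p + q) ^ 2)) := by ring
  have h2 : 0 ≤ (p - q) * (1 - (p + q) ^ 2) :=
    mul_nonneg (by linarith) (by linarith)
  nlinarith [mul_nonneg (mul_nonneg (by norm_num : (0:ℝ) ≤ 2) hq) h2]

/-- `r ≤ X + m Y` with `m = (1-X)/(1+X)`. -/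
lemma local4 (u v : ℝ) (h : |u| + |v| ≤ 1) :
    u ^ 2 + v ^ 2 ≤ |u ^ 2 - v ^ 2| +
      (1 - |u ^ 2 - v ^ 2|) / (1 + |u ^ 2 - v ^ 2|) * |2 * (u * v)| := by
  have hpos : 0 < 1 + |u ^ 2 - v ^ 2| := by positivity
  have key : (u ^ 2 + v ^ 2 - |u ^ 2 - v ^ 2|) * (1 + |u ^ 2 - v ^ 2|) ≤
      (1 - |u ^ 2 - v ^ 2|) * |2 * (u * v)| := by
    rw [abs_mul 2 (u * v), abs_mul u v, abs_two]
    rcases le_total |v| |u| with hvu | huv
    · have h1 : |u ^ 2 - v ^ 2| = |u| ^ 2 - |v| ^ 2 := by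
        rw [sq_abs, sq_abs, abs_of_nonneg]
        have := sq_le_sq' (by linarith [abs_nonneg u, abs_nonneg v]) hvu
        rw [sq_abs, sq_abs] at this
        linarith
      have h2 := local3 |u| |v| (abs_nonneg v) hvu h
      rw [h1]
      rw [← sq_abs u, ← sq_abs v]
      simpa [abs_abs] using h2
    · have h1 : |u ^ 2 - v ^ 2| = |v| ^ 2 - |u| ^ 2 := by
        rw [sq_abs, sq_abs, abs_sub_comm, abs_of_nonneg]
        have := sq_le_sq' (by linarith [abs_nonneg u, abs_nonneg v]) huv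
        rw [sq_abs, sq_abs] at this
        linarith
      have h2 := local3 |v| |u| (abs_nonneg u) huv (by linarith)
      rw [h1]
      rw [← sq_abs u, ← sq_abs v]
      nlinarith
  rw [div_mul_eq_mul_div]
  have h5 : u ^ 2 + v ^ 2 - |u ^ 2 - v ^ 2| ≤
      (1 - |u ^ 2 - v ^ 2|) * |2 * (u * v)| / (1 + |u ^ 2 - v ^ 2|) := by
    rw [le_div_iff₀ hpos]; exact key
  linarith

/-! ### Parity -/

lemma parity (n : ℕ) (x : Fin (2 * n + 1) → ℝ) (hx : ∑ j, x j = 0) (h1 : ∀ j, |x j| ≤ 1) :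
    1 ≤ ∑ j, (1 - |x j|) := by
  classical
  let σ : Fin (2 * n + 1) → ℤ := fun j => if 0 ≤ x j then 1 else -1
  have hσx : ∀ j, (σ j : ℝ) * |x j| = x j := by
    intro j
    by_cases h : 0 ≤ x j
    · simp [σ, h, abs_of_nonneg h]
    · simp [σ, h, abs_of_neg (not_le.mp h)]
  have hσabs : ∀ j, |(σ j : ℝ)| = 1 := by
    intro j
    by_cases h : 0 ≤ x j <;> simp [σ, h]
  have hodd : Odd (∑ j, σ j) := by
    have : ∀ s : Finset (Fin (2 * n + 1)), Odd (∑ j ∈ s, σ j) ↔ Odd s.card := by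
      intro s
      induction s using Finset.induction_on with
      | empty => simp
      | insert a s ha ih =>
        rw [Finset.sum_insert ha, Finset.card_insert_of_notMem ha]
        have hσodd : Odd (σ a) := by
          by_cases h : 0 ≤ x a
          · simp [σ, h]
          · simp [σ, h]
        rw [add_comm (σ a), Int.odd_add, Nat.odd_add_one, ih]
        constructor
        · intro h h2
          have := h.mp h2
          exact (Int.not_even_iff_odd.mpr hσodd) this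
        · intro h
          constructor
          · intro h2; exact absurd h2 h
          · intro h2; exact absurd h2 (Int.not_even_iff_odd.mpr hσodd)
    rw [this]
    simp
  have hne : (∑ j, σ j) ≠ 0 := by
    intro h
    rw [h] at hodd
    simp at hodd
  have hge : (1 : ℝ) ≤ |((∑ j, σ j : ℤ) : ℝ)| := by
    have : (1 : ℤ) ≤ |∑ j, σ j| := Int.one_le_abs hne
    exact_mod_cast this
  have hsum : ((∑ j, σ j : ℤ) : ℝ) = ∑ j, (σ j : ℝ) * (1 - |x j|) := by
    push_cast
    have : ∑ j, (σ j : ℝ) * (1 - |x j|) = ∑ j, (σ j : ℝ) - ∑ j, x j := by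
      rw [← Finset.sum_sub_distrib]
      apply Finset.sum_congr rfl
      intro j _
      rw [mul_sub, mul_one, hσx]
    rw [this, hx, sub_zero]
  rw [hsum] at hge
  refine hge.trans ((Finset.abs_sum_le_sum_abs _ _).trans ?_)
  apply Finset.sum_le_sum
  intro j _
  rw [abs_mul, hσabs, one_mul, abs_of_nonneg (by linarith [h1 j])]

/-! ### The finite-dimensional optimisation -/

lemma final_ineq (d e : ℝ) (he : 0 ≤ e) (hed : e ≤ d) (hd : d ≤ 1) (h1 : 1 ≤ d + e) :
    d / (2 - d) * e + (1 - d / (2 - d)) * e ^ 2 / 2 ≤ (d + e) - 3 / 4 := by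
  have h2 : 0 < 2 - d := by linarith
  have h3 : d / (2 - d) * e + (1 - d / (2 - d)) * e ^ 2 / 2 =
      (d * e + (1 - d) * e ^ 2) / (2 - d) := by
    field_simp
    ring
  rw [h3, div_le_iff₀ h2]
  -- `(d e + (1-d) e²) ≤ (d+e)²/4 (2-d)` and `(d+e) - (d+e)²/4 ≥ 3/4`
  have h4 : d * e + (1 - d) * e ^ 2 ≤ (d + e) ^ 2 / 4 * (2 - d) := by
    have h5 : 0 ≤ d * (2 - d) + e * (2 - 3 * d) := by
      nlinarith
    nlinarith [mul_nonneg (sub_nonneg.mpr hed) h5]
  have h6 : (d + e) ^ 2 / 4 ≤ (d + e) - 3 / 4 := by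
    nlinarith
  exact h4.trans (mul_le_mul_of_nonneg_right h6 h2.le)

lemma core {ι : Type*} [Fintype ι] [DecidableEq ι] (d y : ι → ℝ)
    (hd0 : ∀ j, 0 ≤ d j) (hd1 : ∀ j, d j ≤ 1) (hD : 1 ≤ ∑ j, d j)
    (hy : ∀ j, |y j| ≤ d j * (2 - d j) / 2) (hy0 : ∑ j, y j = 0) :
    ∑ j, d j / (2 - d j) * |y j| ≤ (∑ j, d j) - 3 / 4 := by
  set D := ∑ j, d j with hDdef
  have h2d : ∀ j, 0 < 2 - d j := fun j => by linarith [hd1 j]
  have hm0 : ∀ j, 0 ≤ d j / (2 - d j) := fun j => div_nonneg (hd0 j) (h2d j).le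
  have hmy : ∀ j, d j / (2 - d j) * |y j| ≤ d j ^ 2 / 2 := by
    intro j
    calc d j / (2 - d j) * |y j| ≤ d j / (2 - d j) * (d j * (2 - d j) / 2) :=
          mul_le_mul_of_nonneg_left (hy j) (hm0 j)
      _ = d j ^ 2 / 2 := by
          have := (h2d j).ne'
          field_simp
  by_cases hbig : ∃ j0, D / 2 < d j0
  · obtain ⟨j0, hj0⟩ := hbig
    set e := ∑ j ∈ univ.erase j0, d j with hedef
    have hDe : D = d j0 + e := by
      rw [hDdef, hedef, Finset.add_sum_erase _ _ (Finset.mem_univ j0)]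
    have he0 : 0 ≤ e := Finset.sum_nonneg fun j _ => hd0 j
    have hed : e ≤ d j0 := by linarith
    set m := d j0 / (2 - d j0) with hmdef
    have hm1 : m ≤ 1 := by
      rw [hmdef, div_le_one (h2d j0)]
      linarith [hd1 j0]
    have hyj0 : |y j0| ≤ ∑ j ∈ univ.erase j0, |y j| := by
      have h1 : y j0 = - ∑ j ∈ univ.erase j0, y j := by
        have := Finset.add_sum_erase univ y (Finset.mem_univ j0)
        rw [hy0] at this
        linarith
      rw [h1, abs_neg]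
      exact Finset.abs_sum_le_sum_abs _ _
    have hsum1 : ∑ j, d j / (2 - d j) * |y j| =
        m * |y j0| + ∑ j ∈ univ.erase j0, d j / (2 - d j) * |y j| := by
      rw [Finset.add_sum_erase univ (fun j => d j / (2 - d j) * |y j|) (Finset.mem_univ j0)]
    set S := ∑ j ∈ univ.erase j0, d j ^ 2 with hSdef
    have hS : S ≤ e ^ 2 := Finset.sum_sq_le_sq_sum_of_nonneg (fun j _ => hd0 j)
    have hsum2 : ∑ j ∈ univ.erase j0, |y j| ≤ e - S / 2 := by
      calc ∑ j ∈ univ.erase j0, |y j| ≤ ∑ j ∈ univ.erase j0, (d j - d j ^ 2 / 2) := by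
            apply Finset.sum_le_sum
            intro j _
            have := hy j
            nlinarith
        _ = e - S / 2 := by
            rw [Finset.sum_sub_distrib, ← Finset.sum_div]
    have hsum3 : ∑ j ∈ univ.erase j0, d j / (2 - d j) * |y j| ≤ S / 2 := by
      rw [hSdef, Finset.sum_div]
      exact Finset.sum_le_sum fun j _ => hmy j
    have hfin := final_ineq (d j0) e he0 hed (hd1 j0) (by linarith)
    rw [hsum1]
    have h7 : m * |y j0| ≤ m * (e - S / 2) :=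
      mul_le_mul_of_nonneg_left (hyj0.trans hsum2) (hm0 j0)
    have h8 : m * (e - S / 2) + S / 2 = m * e + (1 - m) * S / 2 := by ring
    have h9 : (1 - m) * S / 2 ≤ (1 - m) * e ^ 2 / 2 := by
      have : (1 - m) * S ≤ (1 - m) * e ^ 2 :=
        mul_le_mul_of_nonneg_left hS (by linarith)
      linarith
    rw [hDe]
    linarith
  · push Not at hbig
    have hsq : ∑ j, d j / (2 - d j) * |y j| ≤ ∑ j, d j ^ 2 / 2 :=
      Finset.sum_le_sum fun j _ => hmy j
    rcases le_total D (3 / 2) with hD2 | hD2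
    · have h1 : ∑ j, d j ^ 2 / 2 ≤ D ^ 2 / 4 := by
        calc ∑ j, d j ^ 2 / 2 ≤ ∑ j, (D / 4) * d j := by
              apply Finset.sum_le_sum
              intro j _
              nlinarith [hbig j, hd0 j]
          _ = D ^ 2 / 4 := by
              rw [← Finset.mul_sum, ← hDdef]; ring
      have h2 : D ^ 2 / 4 ≤ D - 3 / 4 := by nlinarith
      linarith
    · have h1 : ∑ j, d j ^ 2 / 2 ≤ D / 2 := by
        calc ∑ j, d j ^ 2 / 2 ≤ ∑ j, d j / 2 := by
              apply Finset.sum_le_sum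
              intro j _
              nlinarith [hd1 j, hd0 j]
          _ = D / 2 := by
              rw [← Finset.sum_div]
      linarith

/-- The algebraic upper bound. -/
lemma upper_alg (n : ℕ) (u v : Fin (2 * n + 1) → ℝ) (s : ℝ)
    (hu : ∑ j, u j ^ 2 = s ^ 2) (hv : ∑ j, v j ^ 2 = s ^ 2) (huv : ∑ j, u j * v j = 0)
    (h : ∀ j, |u j| + |v j| ≤ 1) : s ^ 2 ≤ n + 1 / 8 := by
  classical
  set x : Fin (2 * n + 1) → ℝ := fun j => u j ^ 2 - v j ^ 2 with hx
  have hx0 : ∑ j, x j = 0 := by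
    rw [hx, Finset.sum_sub_distrib, hu, hv, sub_self]
  have hx1 : ∀ j, |x j| ≤ 1 := fun j => abs_sub_le_one _ _ (h j)
  have hpar := parity n x hx0 hx1
  set d : Fin (2 * n + 1) → ℝ := fun j => 1 - |x j| with hd
  have hcore := core d (fun j => 2 * (u j * v j)) (fun j => by simp only [hd]; linarith [hx1 j])
    (fun j => by simp only [hd]; linarith [abs_nonneg (x j)]) hpar
    (fun j => by
      have := local2 (u j) (v j) (h j)
      simp only [hd, hx]
      convert this using 2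
      ring)
    (by rw [← Finset.mul_sum, huv, mul_zero])
  have hloc : ∀ j, u j ^ 2 + v j ^ 2 ≤ (1 - d j) + d j / (2 - d j) * |2 * (u j * v j)| := by
    intro j
    have := local4 (u j) (v j) (h j)
    have h2 : (2 : ℝ) - (1 - |u j ^ 2 - v j ^ 2|) = 1 + |u j ^ 2 - v j ^ 2| := by ring
    simp only [hd, hx]
    rw [h2]
    linarith
  have hsum : ∑ j, (u j ^ 2 + v j ^ 2) ≤
      ∑ j, ((1 - d j) + d j / (2 - d j) * |2 * (u j * v j)|) :=
    Finset.sum_le_sum fun j _ => hloc j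
  rw [Finset.sum_add_distrib, Finset.sum_add_distrib, Finset.sum_sub_distrib, hu, hv] at hsum
  simp only [Finset.sum_const, Finset.card_univ, Fintype.card_fin, nsmul_eq_mul, mul_one] at hsum
  push_cast at hsum
  linarith

/-! ### From the geometry to the algebra -/

lemma upper_bound (n : ℕ) (s : ℝ) (hs : Inscribed 2 (2 * n + 1) s) :
    s ^ 2 ≤ n + 1 / 8 := by
  obtain ⟨hs0, φ, hφ⟩ := hs
  set L := φ.linearIsometry with hL
  set e0 : EuclideanSpace ℝ (Fin 2) := EuclideanSpace.single 0 s with he0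
  set e1 : EuclideanSpace ℝ (Fin 2) := EuclideanSpace.single 1 s with he1
  set a := φ 0 with ha
  have hmap : ∀ x, φ x = L x + a := by
    intro x
    have := φ.map_vadd 0 x
    simpa [hL, ha] using this
  have h00 := hφ ⟨0, by intro i; constructor <;> simp [hs0.le], rfl⟩
  have h10 := hφ ⟨e0, by intro i; fin_cases i <;> simp [he0, hs0.le], rfl⟩
  have h01 := hφ ⟨e1, by intro i; fin_cases i <;> simp [he1, hs0.le], rfl⟩
  have h11 := hφ ⟨e0 + e1, by intro i; fin_cases i <;> simp [he0, he1, hs0.le], rfl⟩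
  rw [hmap] at h00 h10 h01 h11
  rw [map_add] at h11
  rw [map_zero, zero_add] at h00
  apply upper_alg n (fun j => L e0 j) (fun j => L e1 j) s
  · have : ‖L e0‖ ^ 2 = s ^ 2 := by
      rw [L.norm_map]; simp [he0]
    rw [← this, EuclideanSpace.real_norm_sq_eq]
  · have : ‖L e1‖ ^ 2 = s ^ 2 := by
      rw [L.norm_map]; simp [he1]
    rw [← this, EuclideanSpace.real_norm_sq_eq]
  · have : inner ℝ (L e0) (L e1) = (0 : ℝ) := by
      rw [L.inner_map_map]
      simp [he0, he1, PiLp.inner_apply]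
    rw [PiLp.inner_apply] at this
    rw [← this]
    apply Finset.sum_congr rfl
    intro j _
    simp [mul_comm]
  · intro j
    have k00 := h00 j
    have k10 := h10 j
    have k01 := h01 j
    have k11 := h11 j
    simp only [PiLp.add_apply] at k10 k01 k11
    rcases abs_cases (L e0 j) with ⟨h1, _⟩ | ⟨h1, _⟩ <;>
    rcases abs_cases (L e1 j) with ⟨h2, _⟩ | ⟨h2, _⟩ <;>
    rw [h1, h2] <;> linarith [k00.1, k00.2, k10.1, k10.2, k01.1, k01.2, k11.1, k11.2]

/-! ### The construction -/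

/-- coordinates of the first side -/
noncomputable def cu : ℕ → ℝ
  | 0 => 1 / 4
  | 1 => 1 / 4
  | 2 => 1
  | (k + 3) => if k % 2 = 0 then 1 else 0

/-- coordinates of the second side -/
noncomputable def cv : ℕ → ℝ
  | 0 => 3 / 4
  | 1 => -3 / 4
  | 2 => 0
  | (k + 3) => if k % 2 = 0 then 0 else 1

/-- coordinates of the base vertex -/
noncomputable def ca : ℕ → ℝ
  | 1 => 3 / 4
  | _ => 0

lemma sum_cu (n : ℕ) : ∑ j ∈ range (2 * (n + 1) + 1), cu j ^ 2 = (n + 1 : ℕ) + 1 / 8 := by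
  induction n with
  | zero => norm_num [Finset.sum_range_succ, cu]
  | succ n ih =>
    have : 2 * (n + 1 + 1) + 1 = (2 * (n + 1) + 1) + 1 + 1 := by ring
    rw [this, Finset.sum_range_succ, Finset.sum_range_succ, ih]
    have h1 : 2 * (n + 1) + 1 = 2 * n + 3 := by ring
    have h2 : 2 * (n + 1) + 1 + 1 = (2 * n + 1) + 3 := by ring
    rw [h2, h1]
    have e1 : cu (2 * n + 3) = 1 := by
      simp [cu]
    have e2 : cu ((2 * n + 1) + 3) = 0 := by
      simp only [cu]
      rw [if_neg (by omega)]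
    rw [e1, e2]
    push_cast
    ring

lemma sum_cv (n : ℕ) : ∑ j ∈ range (2 * (n + 1) + 1), cv j ^ 2 = (n + 1 : ℕ) + 1 / 8 := by
  induction n with
  | zero => norm_num [Finset.sum_range_succ, cv]
  | succ n ih =>
    have : 2 * (n + 1 + 1) + 1 = (2 * (n + 1) + 1) + 1 + 1 := by ring
    rw [this, Finset.sum_range_succ, Finset.sum_range_succ, ih]
    have h1 : 2 * (n + 1) + 1 = 2 * n + 3 := by ring
    have h2 : 2 * (n + 1) + 1 + 1 = (2 * n + 1) + 3 := by ring
    rw [h2, h1]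
    have e1 : cv (2 * n + 3) = 0 := by
      simp [cv]
    have e2 : cv ((2 * n + 1) + 3) = 1 := by
      simp only [cv]
      rw [if_neg (by omega)]
    rw [e1, e2]
    push_cast
    ring

lemma sum_cuv (n : ℕ) : ∑ j ∈ range (2 * (n + 1) + 1), cu j * cv j = 0 := by
  induction n with
  | zero => norm_num [Finset.sum_range_succ, cu, cv]
  | succ n ih =>
    have : 2 * (n + 1 + 1) + 1 = (2 * (n + 1) + 1) + 1 + 1 := by ring
    rw [this, Finset.sum_range_succ, Finset.sum_range_succ, ih]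
    have h1 : 2 * (n + 1) + 1 = 2 * n + 3 := by ring
    have h2 : 2 * (n + 1) + 1 + 1 = (2 * n + 1) + 3 := by ring
    rw [h2, h1]
    have e1 : cv (2 * n + 3) = 0 := by
      simp [cv]
    have e2 : cu ((2 * n + 1) + 3) = 0 := by
      simp only [cu]
      rw [if_neg (by omega)]
    rw [e1, e2]
    ring

lemma coord_bound (j : ℕ) (α β : ℝ) (hα : 0 ≤ α) (hα1 : α ≤ 1) (hβ : 0 ≤ β) (hβ1 : β ≤ 1) :
    0 ≤ α * cu j + β * cv j + ca j ∧ α * cu j + β * cv j + ca j ≤ 1 := by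
  match j with
  | 0 => simp only [cu, cv, ca]; constructor <;> linarith
  | 1 => simp only [cu, cv, ca]; constructor <;> linarith
  | 2 => simp only [cu, cv, ca]; constructor <;> linarith
  | (k + 3) =>
    simp only [cu, cv, ca]
    split_ifs <;> constructor <;> linarith

lemma construction (n : ℕ) : Inscribed 2 (2 * (n + 1) + 1) (√((n + 1 : ℕ) + 1 / 8)) := by
  set s : ℝ := √((n + 1 : ℕ) + 1 / 8) with hs
  have hpos : (0 : ℝ) < (n + 1 : ℕ) + 1 / 8 := by positivity
  have hs0 : 0 < s := Real.sqrt_pos.mpr hpos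
  have hs2 : s ^ 2 = (n + 1 : ℕ) + 1 / 8 := Real.sq_sqrt hpos.le
  refine ⟨hs0, ?_⟩
  let N := 2 * (n + 1) + 1
  let U : EuclideanSpace ℝ (Fin N) := WithLp.toLp 2 (fun j => cu j)
  let V : EuclideanSpace ℝ (Fin N) := WithLp.toLp 2 (fun j => cv j)
  let A : EuclideanSpace ℝ (Fin N) := WithLp.toLp 2 (fun j => ca j)
  let T : EuclideanSpace ℝ (Fin 2) →ₗ[ℝ] EuclideanSpace ℝ (Fin N) :=
    { toFun := fun x => (x 0 / s) • U + (x 1 / s) • V
      map_add' := by
        intro x y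
        ext j
        simp
        ring
      map_smul' := by
        intro c x
        ext j
        simp
        ring }
  have hT : ∀ x, ‖T x‖ = ‖x‖ := by
    intro x
    have h1 : ‖T x‖ ^ 2 = ‖x‖ ^ 2 := by
      rw [EuclideanSpace.real_norm_sq_eq, EuclideanSpace.real_norm_sq_eq, Fin.sum_univ_two]
      have h2 : ∀ j : Fin N, (T x j) ^ 2 =
          (x 0 / s) ^ 2 * cu j ^ 2 + (x 1 / s) ^ 2 * cv j ^ 2 +
            2 * (x 0 / s) * (x 1 / s) * (cu j * cv j) := by
        intro j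
        simp [T, U, V]
        ring
      rw [Finset.sum_congr rfl fun j _ => h2 j]
      rw [Finset.sum_add_distrib, Finset.sum_add_distrib, ← Finset.mul_sum, ← Finset.mul_sum,
        ← Finset.mul_sum]
      rw [Fin.sum_univ_eq_sum_range (fun j => cu j ^ 2) N,
        Fin.sum_univ_eq_sum_range (fun j => cv j ^ 2) N,
        Fin.sum_univ_eq_sum_range (fun j => cu j * cv j) N]
      rw [sum_cu, sum_cv, sum_cuv, ← hs2]
      field_simp
      ring
    exact (sq_eq_sq₀ (norm_nonneg _) (norm_nonneg _)).mp h1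
  let L : EuclideanSpace ℝ (Fin 2) →ₗᵢ[ℝ] EuclideanSpace ℝ (Fin N) := ⟨T, hT⟩
  let φ : EuclideanSpace ℝ (Fin 2) →ᵃⁱ[ℝ] EuclideanSpace ℝ (Fin N) :=
    { toFun := fun x => T x + A
      linear := T
      map_vadd' := by
        intro p v
        simp [add_assoc]
      norm_map := hT }
  refine ⟨φ, ?_⟩
  rintro _ ⟨x, hx, rfl⟩ j
  have h0 := hx 0
  have h1 := hx 1
  have h2 : φ x j = (x 0 / s) * cu j + (x 1 / s) * cv j + ca j := by
    change (T x + A) j = _
    simp [T, U, V, A]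
  rw [h2]
  exact coord_bound j _ _ (div_nonneg h0.1 hs0.le) ((div_le_one hs0).mpr h0.2)
    (div_nonneg h1.1 hs0.le) ((div_le_one hs0).mpr h1.2)

/-- **Theorem.** For every `n ≥ 1` the largest square contained in the unit cube of dimension
`2n+1` has edge `√(n + 1/8)`: this edge is attained and no larger one is possible. -/
theorem result : ∀ n : ℕ, 1 ≤ n →
    IsGreatest {s : ℝ | Inscribed 2 (2 * n + 1) s} (√((n : ℝ) + 1 / 8)) := by
  intro n hn
  obtain ⟨k, rfl⟩ : ∃ k, n = k + 1 := ⟨n - 1, by omega⟩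
  refine ⟨?_, ?_⟩
  · exact construction k
  · intro s hs
    exact Real.le_sqrt_of_sq_le (upper_bound _ s hs)

end Pool.Agent.Results.MP_befaea_co.LargestSquareOdd
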